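import Pool.Agent.H95.WC.Main
import Pool.Agent.H91.QS.Coniv

/-!
# The generalized Tate conjecture and coverings of affine spaces, level by level

Let `k` be a number field or a finite field (the theorem is true for all perfect fields). Let `𝒜` be the
category of Chow motives over `k` with rational coefficients, `T l` its Tate objects, `h(X)` the motive of
`X`. Fix a level `r ≥ 0`; let `F ν M = N^ν H^{r + 2 ν}(M)` and `G ν M = N^ν_ℓ H^{r + 2 ν}(M)` be the steps
of the geometric and of the Galois coniveau filtration of the `ℓ`-adic cohomology of the motive `M` (both
are the whole space for `ν < 0`), and `ρ ν` the inclusion. `LevelTate ρ (h X)` is the equality of question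
Q1 for `X` and all `i, ν` with `i - 2 ν = r`. The level `r = 0` is the Tate conjecture.

To every separated scheme `X` of finite type over `k` belongs its weight complex with compact support
`W(X)` (Gillet and Soulé, Bondarko), a bounded complex of motives up to homotopy; for smooth projective
`X` it is the motive of `X` in degree zero. Hypotheses `IsFlatWeightComplex`, `HasCoverings`: there are
distinguished triangles for closed-open decompositions, `W` of an affine bundle is a Tate twist of `W` of
the base, and the same holds for flat morphisms with affine spaces as fibres (flat pull-back and
localization), `W` of an open and closed subscheme of `X` is a direct factor of `W(X)`, `W(Spec A)` is a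
retract of a shift of `W(𝔾_m × Spec A)` and of the weight complexes of the coverings `s ^ d = u`, `u` a
unit, and `W(Spec k)` is the unit object. A complex is `Null` if it is contractible modulo the morphisms which factor
through motives with the property `LevelTate`.

Let `CBuilt n` be the smallest class of schemes over `k` which contains all separated schemes of finite
type of dimension at most `n` and is closed under closed-open decompositions (two out of three), certain
affine bundles (in both directions), division by `𝔾_m` and descent along the cyclic coverings
`s ^ d = u`, and which contains with `Spec A` and the closed subscheme `f = 0` of `Spec A` the covering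
`∏_{c ∈ S} (w - c) = ∑ x_l f_l` of `𝔸^m_A`, for finite non-empty sets `S ⊆ k`, and conversely, if
`|S| ≥ 2`, with `Spec A` and the covering the closed subscheme `f = 0`. There is no restriction on the
dimension of the schemes in this class.

For polynomials `f_1, …, f_m` in the variables `z_1, …, z_N` let `zeroS f` be the closed subscheme
`f_1 = … = f_m = 0` of the affine space, and `covS S f` the covering `∏_{c ∈ S} (w - c) = ∑ x_l f_l(z)` of
the affine space with the coordinates `z_1, …, z_N, x_1, …, x_m`. For a trilinear form
`t(x, y, z) = ∑ t_ijl x_i y_j z_l` the polynomials `bq t` are the bilinear forms `∑ t_ijl x_i y_j`; so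
`covS {α, β} (bq t)` is the double covering `(w - α)(w - β) = t(x, y, z)`.

We show, for each level `r` separately:

* The equality of Q1 in level `r` for the smooth projective varieties of dimension at most `n` is
  equivalent to the statement that the weight complexes of all schemes in `CBuilt n` are null, and to the
  same statement for the coverings `∏_{c ∈ S} (w - c) = t(x, y, z)` for all trilinear forms `t` over `k`
  with at most `n + 2` variables `z`, for one fixed set `S ⊆ k` with at least two elements (over a finite
  field of characteristic `p` with `S = 𝔽_p` these are the Artin–Schreier coverings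
  `w^p - w = t(x, y, z)`). It implies the equality of Q1 in level `r` for all smooth projective varieties
  in `CBuilt n`, of any dimension.
* The weight complex of the covering `∏_{c ∈ S} (w - c) = ∑ x_l f_l(z)` is null if and only if the weight
  complex of `f = 0` is.
* Over a prime field Q1 in level `r` for all smooth projective varieties is equivalent to the statement
  that the weight complexes of the coverings `∏_{c ∈ S} (w - c) = ∑_l z_l ∑_{(i, j) ∈ E_l} x_i y_j` are
  null, for all finite sets `E_l` of pairs.
* All these coverings are smooth over `k`; and the class `CBuilt n` contains the covering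
  `∏_{c ∈ S} (w - c) = t(x, y, z)` if there are at most `n + 2` variables `z`, and the covering
  `∏_{c ∈ S} (w - c) = ∑ x_l f_l(z)` if there are at most `n + 1` variables `z_i`, or if the scheme `f = 0`
  has dimension at most `n`, or if `f_1, …, f_(n+1)` have degree at most two and all other `f_l` degree at
  most one (`2 ≠ 0` in `k`).

By hard Lefschetz the equality of Q1 in level `r` is true in dimension at most `r + 1`. So it is true in
level `r` for all smooth projective varieties in `CBuilt (r + 1)`, of any dimension, for example if they
have a decomposition into locally closed pieces which are coverings of one of these kinds with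
`n = r + 1`. The Tate conjecture for surfaces implies the Tate conjecture for all smooth projective
varieties in `CBuilt 2`.
-/

set_option autoImplicit false

open CategoryTheory Limits MonoidalCategory AlgebraicGeometry Pool.Agent.Y116.UV
  Pool.Agent.W5h93.EX Pool.Agent.W5h93.WC Pool.Agent.W5h68.CP Pool.Agent.H91.QS
  Pool.Agent.H95.WC

universe v u v' u'

namespace Pool.Agent.Results.MP_8abef2_ag.CoveringsOfAffineSpaces

/-- **The generalized Tate conjecture and coverings of affine spaces.** See the explanations above. -/
theorem result {k : Type} [Field k] [PerfectField k] {𝒜 : Type u} [Category.{v} 𝒜] [Preadditive 𝒜]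
    [HasZeroObject 𝒜] [HasBinaryBiproducts 𝒜] [MonoidalCategory 𝒜] [MonoidalPreadditive 𝒜]
    {𝒢 : Type u'} [Category.{v'} 𝒢] [Preadditive 𝒢] {T : ℤ → 𝒜} {F G : ℤ → 𝒜 ⥤ 𝒢}
    {ρ : ∀ ν, F ν ⟶ G ν} (hρ : IsConiveau T ρ)
    {W : Sch k → HomotopyCategory 𝒜 (ComplexShape.up ℤ)} (hW : IsFlatWeightComplex T W)
    (hc : HasCoverings W) {Q : Sch k → Prop} (hQ : IsClass Q) (h : Sch k → 𝒜)
    (hh : ∀ X, Q X → Nonempty (W X ≅ cpx (h X))) :
    CovReduces Q (fun X => LevelTate ρ (h X)) (fun X => Null (LevelTate ρ) (W X).as) ∧
      CovMembers k :=
  ⟨covReduces_wc (V := levelCls hρ) (fun l _ hM => hM.twist hρ l) hρ.unit hW hc hQ h hh,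
    covMembers⟩

end Pool.Agent.Results.MP_8abef2_ag.CoveringsOfAffineSpaces
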