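import Pool.Agent.H9.LG.Main
import Pool.Agent.H91.QS.Coniv

/-!
# The generalized Tate conjecture and labelled graphs of maximal degree three

Let `k` be a number field or a finite field (the theorem is true for all perfect fields). Let `G` be a
finite bipartite graph of maximal degree at most three, whose edges are labelled by elements of `k` and by
variables `x_1, …, x_d` (`LabelledGraph k d`). Its adjacency matrix `G.adj` is a symmetric matrix of labels
and zeros, with at most three elements different from zero in each row, and `G.scheme` is the open
subscheme of the affine space of dimension `d` where this matrix is invertible. (Up to a sign the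
determinant is the square of the signed sum over the perfect matchings of `G` of the products of the
labels of the edges.)

Let `𝒜` be the category of Chow motives over `k` with rational coefficients, `T l` its Tate objects, `h(X)`
the motive of `X`. For a pair `θ = (ℓ, r)`, `ℓ` a prime different from the characteristic and `r ≥ 0`, let
`F θ ν M = N^ν H^{r + 2 ν}(M, ℚ_ℓ)` and `G θ ν M = N^ν_ℓ H^{r + 2 ν}(M, ℚ_ℓ)` be the steps of the geometric
and of the Galois coniveau filtration (both are the whole space for `ν < 0`), and `ρ θ ν` the inclusion.
`LevelTate (ρ θ) (h X)` is the equality of Q1 for `X`, `ℓ` and all `i, ν` with `i - 2 ν = r`.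

To every separated scheme `X` of finite type over `k` belongs its weight complex with compact support
`W(X)` (Gillet and Soulé, Bondarko), a bounded complex of Chow motives up to homotopy; for smooth
projective `X` it is the motive of `X` in degree zero. Hypotheses `IsWeightComplex`, `HasFiniteCovers`:
there are distinguished triangles for closed-open decompositions, `W` of an affine bundle is a Tate twist
of `W` of the base, `W(Spec A)` is a retract of a shift of `W(𝔾_m × Spec A)` and of the weight complexes of
the finite free coverings of `Spec A`, and `W(Spec k)` is the unit object. A complex is `Null` if it is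
contractible modulo the morphisms which factor through motives with the property `LevelTate`; then the
maps `H^m(N^ν H^{r + 2 ν}(W(X))) → H^m(N^ν_ℓ H^{r + 2 ν}(W(X)))` are isomorphisms. `HasAlterations` is the
theorem of de Jong.

**Theorem.** For every `ℓ`, every level `r` and every `n` the following are equivalent:

1. The equality of Q1 is true for all smooth projective varieties over `k` of dimension at most `n`, and
   all `i, ν` with `i - 2 ν = r`.
2. The weight complexes of the open subschemes `G.scheme` of the affine space of dimension `n + 1` are
   null, for all labelled bipartite graphs `G` of maximal degree at most three with the variables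
   `x_1, …, x_(n+1)`.

If `k = ℚ` or `k = 𝔽_p`, it is enough to consider the graphs whose edges are labelled by `1` and by the
variables. For each smooth projective variety of dimension at most `n` there are finitely many such
graphs, the same ones for all `ℓ` and `r`, such that 2. for these graphs implies 1. for the variety.

By hard Lefschetz 1. is true for `n ≤ r + 1`; so 2. is true for graphs with at most `r + 2` variables, in
level `r`. The Tate conjecture (`r = 0`) for surfaces is equivalent to 2. for graphs with three variables,
the Tate conjecture for threefolds to 2. for graphs with four variables, and so on.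

The construction of matrices with at most three elements different from zero in each row and column, with
a given polynomial as determinant (a sparse form of the theorem of Valiant) is in the starting library
(`MP_fc2ced_ag.SparseLinearSections`); the graph is the bipartite graph of such a matrix.
-/

set_option autoImplicit false

open CategoryTheory Limits MonoidalCategory AlgebraicGeometry Pool.Agent.Y116.UV
  Pool.Agent.W5h93.EX Pool.Agent.W5h93.WC Pool.Agent.H91.QS Pool.Agent.H9.CD Pool.Agent.H9.LG

universe v u v' u' w

namespace Pool.Agent.Results.MP_8abef2_ag.LabelledGraphs

/-- **The generalized Tate conjecture and labelled graphs of maximal degree three.** See the explanations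
above. -/
theorem result {k : Type} [Field k] [PerfectField k] {𝒜 : Type u} [Category.{v} 𝒜]
    [Preadditive 𝒜] [HasZeroObject 𝒜] [HasBinaryBiproducts 𝒜] [MonoidalCategory 𝒜]
    [MonoidalPreadditive 𝒜] {T : ℤ → 𝒜} {Θ : Type w} {𝒢 : Θ → Type u'}
    [∀ θ, Category.{v'} (𝒢 θ)] [∀ θ, Preadditive (𝒢 θ)] {F G : ∀ θ, ℤ → 𝒜 ⥤ 𝒢 θ}
    {ρ : ∀ θ ν, F θ ν ⟶ G θ ν} (hρ : ∀ θ, IsConiveau T (ρ θ))
    {W : Sch k → HomotopyCategory 𝒜 (ComplexShape.up ℤ)} (hW : IsWeightComplex T W)
    (hc : HasFiniteCovers W) {Q : Sch k → Prop} (hQ : IsClass Q) (hA : HasAlterations Q)
    (h : Sch k → 𝒜) (hh : ∀ X, Q X → Nonempty (W X ≅ cpx (h X))) :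
    GraphsDecide Q (fun θ X => LevelTate (ρ θ) (h X))
      (fun θ X => Null (LevelTate (ρ θ)) (W X).as) :=
  graphsDecide_wc (V := fun θ => levelCls (hρ θ)) (fun θ l _ hM => hM.twist (hρ θ) l)
    (fun θ => (hρ θ).unit) hW hc hQ hA h hh

end Pool.Agent.Results.MP_8abef2_ag.LabelledGraphs
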