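import Pool.Agent.H9.CD.Main
import Pool.Agent.H91.QS.Coniv

/-!
# The generalized Tate conjecture and completions of partial matrices

Let `k` be a number field or a finite field (the theorem is true for all perfect fields). A partial matrix
`Z` over `k` has at some places prescribed elements of `k`. If `Z` is a partial square matrix let `glC Z` be
the scheme of its invertible completions: the open subscheme `det ≠ 0` of an affine space, where the
entries of the matrix at the free places are independent variables. For each partial matrix `Z` let `rkC Z`
be the affine scheme of its completions of rank at most three (it is given by the minors of size four).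
For `k = ℚ` and `k = 𝔽_p` (all elements of `k` are quotients of integers, `Frac k`) let `glS k Z` and
`rkS k Z` be the schemes of the invertible matrices and of the matrices of rank at most three with zeros at
the places of the set `Z`. These two cases are enough for question Q1: a smooth projective variety over a
number field (a finite field) is also a smooth projective scheme over `ℚ` (over `𝔽_p`), its cohomology over
`k` is the induced representation, and the equality of Q1 is true over the big field if and only if it is
true over `k`; the class `Q` below may contain these schemes.

Let `𝒜` be the category of Chow motives over `k` with rational coefficients, `T l` its Tate objects, `h(X)`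
the motive of `X`. For a pair `θ = (ℓ, r)`, `ℓ` a prime different from the characteristic and `r ≥ 0`, let
`F θ ν M = N^ν H^{r + 2 ν}(M, ℚ_ℓ)` and `G θ ν M = N^ν_ℓ H^{r + 2 ν}(M, ℚ_ℓ)` be the steps of the geometric
and of the Galois coniveau filtration (both are the whole space for `ν < 0`), and `ρ θ ν` the inclusion.
`LevelTate (ρ θ) (h X)` is the equality of Q1 for `X`, `ℓ` and all `i, ν` with `i - 2 ν = r`.

To every separated scheme `X` of finite type over `k` belongs its weight complex with compact support
`W(X)` (Gillet and Soulé, Bondarko), a bounded complex of Chow motives up to homotopy; for smooth
projective `X` it is the motive of `X` in degree zero. Hypotheses `IsWeightComplex`, `HasFiniteCovers`: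
there are distinguished triangles for closed-open decompositions, `W` of an affine bundle is a Tate twist
of `W` of the base, `W(Spec A)` is a retract of a shift of `W(𝔾_m × Spec A)` and of the weight complexes of
the finite free coverings of `Spec A`, and `W(Spec k)` is the unit object. A complex is `Null` if it is
contractible modulo the morphisms which factor through motives with the property `LevelTate`; then the
maps `H^m(N^ν H^{r + 2 ν}(W(X))) → H^m(N^ν_ℓ H^{r + 2 ν}(W(X)))` are isomorphisms. `HasAlterations` is the
theorem of de Jong.

**Theorem.** For every `ℓ` and every level `r` separately, the following are equivalent: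

1. The equality of Q1 is true for all smooth projective varieties over `k`, and all `i, ν` with
   `i - 2 ν = r`.
2. The weight complexes of the schemes of the invertible completions of all partial square matrices over
   `k` are null. For `k = ℚ` and `k = 𝔽_p` it is enough to prescribe zeros.
3. The weight complexes of the schemes of the completions of rank at most three of all partial matrices
   over `k` are null. For `k = ℚ` and `k = 𝔽_p` it is enough to prescribe zeros.

For each smooth projective variety `X` there are finitely many partial matrices, the same ones for all `ℓ`
and `r`, such that 2. for these matrices implies the equality of Q1 for `X`. Conversely, the weight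
complex in 2. is null if the equality of Q1 in level `r` is true in dimension at most the number of the
free places; so it is null for all partial matrices with at most `r + 1` free places, by hard Lefschetz.

The universality of the completions of partial matrices is the theorem of helper57
(`MP_fc2ced_ag.MatrixCompletions`), here with alterations, finite lists and dimensions.
-/

set_option autoImplicit false

open CategoryTheory Limits MonoidalCategory AlgebraicGeometry Pool.Agent.Y116.UV
  Pool.Agent.W5h93.EX Pool.Agent.W5h93.WC Pool.Agent.H91.QS Pool.Agent.H9.CD

universe v u v' u' w

namespace Pool.Agent.Results.MP_8abef2_ag.MatrixCompletions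

/-- **The generalized Tate conjecture and completions of partial matrices.** See the explanations
above. -/
theorem result {k : Type} [Field k] [PerfectField k] {𝒜 : Type u} [Category.{v} 𝒜]
    [Preadditive 𝒜] [HasZeroObject 𝒜] [HasBinaryBiproducts 𝒜] [MonoidalCategory 𝒜]
    [MonoidalPreadditive 𝒜] {T : ℤ → 𝒜} {Θ : Type w} {𝒢 : Θ → Type u'}
    [∀ θ, Category.{v'} (𝒢 θ)] [∀ θ, Preadditive (𝒢 θ)] {F G : ∀ θ, ℤ → 𝒜 ⥤ 𝒢 θ}
    {ρ : ∀ θ ν, F θ ν ⟶ G θ ν} (hρ : ∀ θ, IsConiveau T (ρ θ))
    {W : Sch k → HomotopyCategory 𝒜 (ComplexShape.up ℤ)} (hW : IsWeightComplex T W)
    (hc : HasFiniteCovers W) {Q : Sch k → Prop} (hQ : IsClass Q) (hA : HasAlterations Q)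
    (h : Sch k → 𝒜) (hh : ∀ X, Q X → Nonempty (W X ≅ cpx (h X))) :
    CompletionsDecide Q (fun θ X => LevelTate (ρ θ) (h X))
      (fun θ X => Null (LevelTate (ρ θ)) (W X).as) :=
  completionsDecide_wc (V := fun θ => levelCls (hρ θ)) (fun θ l _ hM => hM.twist (hρ θ) l)
    (fun θ => (hρ θ).unit) hW hc hQ hA h hh

end Pool.Agent.Results.MP_8abef2_ag.MatrixCompletions
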