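import Pool.Agent.H91.QS.Coniv

/-!
# The generalized Tate conjecture and systems of quadratic equations, level by level

Let `k` be a number field or a finite field of odd characteristic (the theorem is true for all perfect
fields of characteristic `≠ 2`). Let `𝒜` be the category of Chow motives over `k` with rational
coefficients, `T l` its Tate objects, `h(X)` the motive of `X`. Fix a level `r ≥ 0`; let
`F ν M = N^ν H^{r + 2 ν}(M)` and `G ν M = N^ν_ℓ H^{r + 2 ν}(M)` be the steps of the geometric and of the
Galois coniveau filtration of the `ℓ`-adic cohomology of the motive `M` (both are the whole space for
`ν < 0`), and `ρ ν` the inclusion. `LevelTate ρ (h X)` is the equality of question Q1 for `X` and all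
`i, ν` with `i - 2 ν = r`. The level `r = 0` is the Tate conjecture.

To every separated scheme `X` of finite type over `k` belongs its weight complex with compact support
`W(X)` (Gillet and Soulé, Bondarko), a bounded complex of Chow motives up to homotopy; for smooth
projective `X` it is the motive of `X` in degree zero. Hypotheses `IsWeightComplex`, `HasCoverings`: there
are distinguished triangles for closed-open decompositions, `W` of an affine bundle is a Tate twist of `W`
of the base, `W(Spec A)` is a retract of a shift of `W(𝔾_m × Spec A)` and of the weight complexes of the
coverings `s ^ d = u`, `u` a unit, and `W(Spec k)` is the unit object. A complex is `Null` if it is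
contractible modulo the morphisms which factor through motives with the property `LevelTate`; then the
maps `H^m(N^ν H^{r + 2 ν}(W(X))) → H^m(N^ν_ℓ H^{r + 2 ν}(W(X)))` are isomorphisms.

Let `Built k n` be the smallest class of schemes which contains the affine schemes of dimension at most
`n` and is closed under closed-open decompositions (two out of three), affine bundles (in both
directions), division by `𝔾_m` and descent along the coverings `s ^ d = u`. We show, for each level `r`
separately:

* `Built k n` contains all schemes given by `c + 1` quadratic equations and any number of linear equations
  in any number of variables over an affine base `Spec A`, if `dim A + c ≤ n`. It contains all closed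
  subschemes of projective spaces which are the intersection of `n + 1` quadrics and hyperplanes.
* The equality of Q1 in level `r` for the smooth projective varieties of dimension at most `n` is
  equivalent to the statement that the weight complexes of all schemes in `Built k n` are null; and it
  implies the equality of Q1 in level `r` for all smooth projective varieties in `Built k n`, of any
  dimension.
* It follows from the statement that the weight complexes of the affine schemes given by `n + 2`
  quadratic equations are null.

By hard Lefschetz the equality of Q1 in level `r` is true in dimension at most `r + 1`. So it is true in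
level `r` for all smooth projective varieties in `Built k (r + 1)`: for example for the smooth projective
intersections of `r + 2` quadrics and for the smooth projective families of intersections of `c + 1`
quadrics over bases of dimension `s ≤ r + 1 - c`, with arbitrary degenerate fibres. The first open cases
are equivalent to statements about surfaces for the Tate conjecture (`r = 0`, `n = 2`): the Tate conjecture
for surfaces implies the Tate conjecture for all smooth projective intersections of three quadrics and
for all quadric fibrations over surfaces.
-/

set_option autoImplicit false

open CategoryTheory Limits MonoidalCategory AlgebraicGeometry Pool.Agent.Y116.UV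
  Pool.Agent.W5h93.EX Pool.Agent.W5h93.WC Pool.Agent.W5h68.CP Pool.Agent.H91.QS

universe v u v' u'

namespace Pool.Agent.Results.MP_8abef2_ag.QuadraticSystems

/-- **The generalized Tate conjecture and systems of quadratic equations.** See the explanations
above. -/
theorem result {k : Type} [Field k] [PerfectField k] (h2 : (2 : k) ≠ 0) {𝒜 : Type u}
    [Category.{v} 𝒜] [Preadditive 𝒜] [HasZeroObject 𝒜] [HasBinaryBiproducts 𝒜] [MonoidalCategory 𝒜]
    [MonoidalPreadditive 𝒜] {𝒢 : Type u'} [Category.{v'} 𝒢] [Preadditive 𝒢] {T : ℤ → 𝒜}
    {F G : ℤ → 𝒜 ⥤ 𝒢} {ρ : ∀ ν, F ν ⟶ G ν} (hρ : IsConiveau T ρ)
    {W : Sch k → HomotopyCategory 𝒜 (ComplexShape.up ℤ)} (hW : IsWeightComplex T W)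
    (hc : HasCoverings W) {Q : Sch k → Prop} (hQ : IsClass Q) (h : Sch k → 𝒜)
    (hh : ∀ X, Q X → Nonempty (W X ≅ cpx (h X))) :
    QuadReduces Q (fun X => LevelTate ρ (h X)) (fun X => Null (LevelTate ρ) (W X).as) ∧
      ∀ n, AffineQuadrics k n (Built k n) ∧ ProjectiveQuadrics k n (Built k n) :=
  ⟨quadReduces_wc (V := levelCls hρ) (fun l _ hM => hM.twist hρ l) hρ.unit hW hc hQ h hh,
    fun n => ⟨affineQuadrics_built h2 n, projectiveQuadrics_built h2 n⟩⟩

end Pool.Agent.Results.MP_8abef2_ag.QuadraticSystems
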